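import Mathlib
import Pool.Agent.H378R2.M1
import Pool.Agent.H555R4.DY.Stmts

/-! Task Z2 of project H555-LW (second prover helper201). -/

set_option autoImplicit false

open Finset Filter Topology

namespace Pool.Agent.H201R3.DYZ2

open Pool.Agent.H378R2 (psiPhi)
open Pool.Agent.H378R2.M1
open Pool.Agent.H555R4.DY
open DirichletCharacter

theorem core (A : ℕ) {q : ℕ} [NeZero q] (χ : DirichletCharacter ℂ q) (hχ : χ ≠ 1)
    {X C δ M : ℝ} (hXpos : 0 < X) (hLpos : 0 < Real.log X)
    (hlam4 : 4 ≤ Real.log (Real.log X))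
    (hC : ∀ c : ℝ, 1 < c → c ≤ 2 →
      ∑' n : ℕ, ArithmeticFunction.vonMangoldt n * (n : ℝ) ^ (-c) ≤ C / (c - 1) ^ 2)
    (hC48 : 48 * C ≤ Real.exp (Real.log (Real.log X)))
    (hδ0 : 0 < δ) (hδ4 : δ ≤ 1 / 4) (hM0 : 0 ≤ M)
    (hM48 : 48 * M ≤ Real.exp (4 * Real.log (Real.log X)))
    (hδL : ((A : ℝ) + 4) * Real.log (Real.log X) ≤ δ * Real.exp (Real.log (Real.log X)))
    (hL : ∀ s : ℂ, |s.re - 1| ≤ δ → |s.im| ≤ Real.exp (((A : ℝ) + 4) * Real.log (Real.log X)) →
      LFunction χ s ≠ 0 ∧ ‖deriv (LFunction χ) s / LFunction χ s‖ ≤ M) :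
    ‖psiPhi χ X‖ ≤ X / (Real.log X) ^ A := by
  set lam := Real.log (Real.log X) with hlam
  have hexplam : Real.exp lam = Real.log X := by rw [hlam, Real.exp_log hLpos]
  have hlam0 : 0 < lam := by linarith
  have hA0 : (0 : ℝ) ≤ A := Nat.cast_nonneg A
  set T : ℝ := Real.exp (((A : ℝ) + 4) * lam) with hT
  have hT1' : 1 ≤ T := Real.one_le_exp (by positivity)
  have hAl : 4 * lam ≤ ((A : ℝ) + 4) * lam := by
    have : 0 ≤ (A : ℝ) * lam := by positivity
    linarith
  set c : ℝ := 1 + 1 / Real.log X with hc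
  have hc1 : 1 < c := by
    rw [hc]
    have : 0 < 1 / Real.log X := by positivity
    linarith
  have hcδ : c ≤ 1 + δ := by
    rw [hc, ← hexplam]
    have h1 : 1 ≤ δ * Real.exp lam := by linarith
    have h2 : 1 / Real.exp lam ≤ δ := by
      rw [div_le_iff₀ (Real.exp_pos _)]; exact h1
    linarith
  have hX1 : 1 ≤ X := by
    by_contra h
    push Not at h
    have := Real.log_nonpos hXpos.le h.le
    linarith
  have hXc : X ^ c ≤ 3 * X := by
    rw [hc, Real.rpow_add hXpos, Real.rpow_one]
    have h1 : X ^ (1 / Real.log X) = Real.exp 1 := by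
      rw [Real.rpow_def_of_pos hXpos, mul_one_div_cancel hLpos.ne']
    rw [h1]
    have := Real.exp_one_lt_d9
    nlinarith
  have hAA : ∑' n : ℕ, ArithmeticFunction.vonMangoldt n * (n : ℝ) ^ (-c) ≤
      C * Real.exp (2 * lam) := by
    refine (hC c hc1 (by linarith)).trans (le_of_eq ?_)
    have h1 : c - 1 = 1 / Real.log X := by rw [hc]; ring
    have h2 : Real.exp (2 * lam) = (Real.log X) ^ 2 := by
      rw [← hexplam, ← Real.exp_nat_mul]; norm_num
    rw [h1, h2]
    field_simp
  have hcont := contour χ hχ hX1 hc1 hδ0 hδ4 hcδ hXc hT1' hM0 hAA hL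
  refine hcont.trans ?_
  have hgoal : X / (Real.log X) ^ A = X * Real.exp (-(A * lam)) := by
    rw [← hexplam, ← Real.exp_nat_mul, Real.exp_neg, div_eq_mul_inv]
  rw [hgoal]
  have hXδ : X ^ (1 - δ) = X * Real.exp (-(δ * Real.exp lam)) := by
    rw [sub_eq_add_neg, Real.rpow_add hXpos, Real.rpow_one, Real.rpow_def_of_pos hXpos, hexplam]
    congr 2; ring
  have t1 : 48 * (X ^ (1 - δ) * M) ≤ X * Real.exp (-(A * lam)) := by
    rw [hXδ]
    calc 48 * (X * Real.exp (-(δ * Real.exp lam)) * M)
        = X * ((48 * M) * Real.exp (-(δ * Real.exp lam))) := by ring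
      _ ≤ X * (Real.exp (4 * lam) * Real.exp (-(((A : ℝ) + 4) * lam))) := by
          gcongr
      _ = _ := by rw [← Real.exp_add]; congr 2; ring
  have hTT : 1 / T ^ 2 = Real.exp (-(2 * (((A : ℝ) + 4) * lam))) := by
    rw [hT, ← Real.exp_nat_mul, Real.exp_neg, one_div]; norm_num
  have t2 : 48 * (X * M / T ^ 2) ≤ X * Real.exp (-(A * lam)) := by
    calc 48 * (X * M / T ^ 2) = X * ((48 * M) * (1 / T ^ 2)) := by ring
      _ = X * ((48 * M) * Real.exp (-(2 * (((A : ℝ) + 4) * lam)))) := by rw [hTT]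
      _ ≤ X * (Real.exp (4 * lam) * Real.exp (-(((A : ℝ) + 4) * lam))) :=
          mul_le_mul_of_nonneg_left
            (mul_le_mul hM48 (Real.exp_le_exp.mpr (by linarith)) (Real.exp_pos _).le
              (Real.exp_pos _).le) hXpos.le
      _ = _ := by rw [← Real.exp_add]; congr 2; ring
  have hT1 : 1 / T = Real.exp (-(((A : ℝ) + 4) * lam)) := by
    rw [hT, Real.exp_neg, one_div]
  have t3 : 48 * (X * (C * Real.exp (2 * lam)) / T) ≤ X * Real.exp (-(A * lam)) := by
    calc 48 * (X * (C * Real.exp (2 * lam)) / T) = X * ((48 * C) * Real.exp (2 * lam) * (1 / T)) := by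
          ring
      _ = X * ((48 * C) * Real.exp (2 * lam) * Real.exp (-(((A : ℝ) + 4) * lam))) := by rw [hT1]
      _ ≤ X * (Real.exp lam * Real.exp (2 * lam) * Real.exp (-(((A : ℝ) + 3) * lam))) := by
          gcongr
          linarith
      _ = _ := by rw [← Real.exp_add, ← Real.exp_add]; congr 2; ring
  linarith

theorem taskZ2 : TaskZ2 := by
  intro hZ1 hQ A
  obtain ⟨c, l₀, hc0, hc4, hl₀, hz⟩ := hZ1
  obtain ⟨d, hd0, hd2, hnzr⟩ := nzr_exc
  obtain ⟨l1, hl1⟩ := hnzr 8
  obtain ⟨C, hC1, hC⟩ := vM_sum_bound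
  have hA0 : (0 : ℝ) ≤ A := Nat.cast_nonneg A
  set B : ℝ := (A : ℝ) + 4 with hB
  have hB4 : 4 ≤ B := by linarith
  obtain ⟨a1, ha1⟩ := exp_dominates (48 * C) 1
  obtain ⟨a2, ha2⟩ := exp_dominates (4 * B * B / c) 3
  obtain ⟨a3, ha3⟩ := exp_dominates (48 * (2 * B) ^ 18 / d) 18
  obtain ⟨a4, ha4⟩ := exp_dominates (B * (2 * B) ^ 18 / d) 19
  obtain ⟨a5, ha5⟩ := exp_dominates (4 * B) 1
  set Λ : ℝ := max (max (max a1 a2) (max a3 a4)) (max (max a5 (2 * B / c)) (max (max l₀ l1) 48)) with hΛ
  refine ⟨Real.exp (Real.exp Λ), fun X hX a ha haX χ hχ => ?_⟩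
  set lam := Real.log (Real.log X) with hlam
  have hXpos : 0 < X := (Real.exp_pos _).trans_le hX
  have hL : Real.exp Λ ≤ Real.log X := by
    rw [Real.le_log_iff_exp_le hXpos]; exact hX
  have hLpos : 0 < Real.log X := (Real.exp_pos _).trans_le hL
  have hlam1 : Λ ≤ lam := by
    rw [hlam, Real.le_log_iff_exp_le hLpos]; exact hL
  have hlama1 : a1 ≤ lam := by
    refine le_trans ?_ hlam1
    exact (le_max_left _ _).trans ((le_max_left _ _).trans (le_max_left _ _))
  have hlama2 : a2 ≤ lam := by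
    refine le_trans ?_ hlam1
    exact (le_max_right _ _).trans ((le_max_left _ _).trans (le_max_left _ _))
  have hlama3 : a3 ≤ lam := by
    refine le_trans ?_ hlam1
    exact (le_max_left _ _).trans ((le_max_right _ _).trans (le_max_left _ _))
  have hlama4 : a4 ≤ lam := by
    refine le_trans ?_ hlam1
    exact (le_max_right _ _).trans ((le_max_right _ _).trans (le_max_left _ _))
  have hlama5 : a5 ≤ lam := by
    refine le_trans ?_ hlam1
    exact (le_max_left _ _).trans ((le_max_left _ _).trans (le_max_right _ _))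
  have hlamBc : 2 * B / c ≤ lam := by
    refine le_trans ?_ hlam1
    exact (le_max_right _ _).trans ((le_max_left _ _).trans (le_max_right _ _))
  have hlaml₀ : l₀ ≤ lam := by
    refine le_trans ?_ hlam1
    exact (le_max_left _ _).trans ((le_max_left _ _).trans ((le_max_right _ _).trans (le_max_right _ _)))
  have hlaml1 : l1 ≤ lam := by
    refine le_trans ?_ hlam1
    exact (le_max_right _ _).trans ((le_max_left _ _).trans ((le_max_right _ _).trans (le_max_right _ _)))
  have hlam48 : 48 ≤ lam := by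
    refine le_trans ?_ hlam1
    exact (le_max_right _ _).trans ((le_max_right _ _).trans (le_max_right _ _))
  have hexplam : Real.exp lam = Real.log X := by rw [hlam, Real.exp_log hLpos]
  have hlam0 : 0 < lam := by linarith
  have hlam1' : 1 ≤ lam := by linarith
  have h48 : 48 ≤ Real.exp lam := by
    have := Real.add_one_le_exp lam
    linarith
  have hC48 : 48 * C ≤ Real.exp lam := by
    refine le_trans ?_ (ha1 lam hlama1)
    have : 48 * C * 1 ≤ 48 * C * lam ^ 1 := by
      rw [pow_one]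
      gcongr
    linarith
  have hBlam : B ≤ B * lam := by nlinarith
  have hTl : ∀ y : ℝ, |y| ≤ Real.exp (((A : ℝ) + 4) * lam) → Real.log (2 * |y| + 3) ≤ 2 * B * lam := by
    intro y hy
    rw [Real.log_le_iff_le_exp (by positivity)]
    have h1 : Real.exp (2 * B * lam) = Real.exp (B * lam) * Real.exp (B * lam) := by
      rw [← Real.exp_add]; congr 1; ring
    have h2 : 3 ≤ Real.exp (B * lam) := by
      have := Real.add_one_le_exp (B * lam)
      linarith
    rw [h1]
    have h3 : |y| ≤ Real.exp (B * lam) := hy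
    nlinarith
  have hq : NeZero (2 ^ a) := ⟨by positivity⟩
  have hq1 : 1 < 2 ^ a := Nat.one_lt_two_pow (by omega)
  have hχ1 : χ ≠ 1 := primitive_ne_one hq1 hχ
  by_cases ha44 : 4 ≤ a
  · -- large conductor
    have hχ2 : χ ^ 2 ≠ 1 := hQ a ha44 χ hχ
    set l : ℝ := a + 2 * B * lam with hl
    have ha0 : (0 : ℝ) ≤ a := Nat.cast_nonneg a
    have hl_ge : lam ≤ l := by
      have : lam ≤ 2 * B * lam := by nlinarith
      rw [hl]; linarith
    have hlpos : 0 < l := by linarith
    have hl_le : l ≤ Real.exp lam := by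
      have h1 : (a : ℝ) * 2 ≤ Real.exp lam := by
        rw [hexplam]
        refine le_trans ?_ haX
        gcongr
        have : lam ≤ lam ^ 3 := le_self_pow₀ hlam1' (by norm_num)
        linarith
      have h2 := ha5 lam hlama5
      rw [pow_one] at h2
      rw [hl]; linarith
    have hlogl : Real.log l ≤ lam := by
      rw [Real.log_le_iff_le_exp hlpos]; exact hl_le
    have hlogl1 : 1 ≤ Real.log l := by
      rw [Real.le_log_iff_exp_le hlpos]
      have := Real.exp_one_lt_d9
      linarith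
    have hlogl0 : 0 < Real.log l := by linarith
    have hllog : 1 ≤ l * Real.log l := by nlinarith
    refine core A χ hχ1 hXpos hLpos (by linarith) hC hC48 (δ := c / (l * Real.log l)) (M := l ^ 3)
      (by positivity) ?_ (by positivity) ?_ ?_ ?_
    · refine le_trans (div_le_self hc0.le hllog) hc4
    · calc 48 * l ^ 3 ≤ Real.exp lam * (Real.exp lam) ^ 3 := by gcongr
        _ = Real.exp (4 * lam) := by
          rw [← Real.exp_nat_mul, ← Real.exp_add]; congr 1; push_cast; ring
    · rw [div_mul_eq_mul_div, le_div_iff₀ (by positivity)]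
      have h1 : l * Real.log l ≤ (a + 2 * B * lam) * lam := by
        rw [← hl]; gcongr
      have h2 : (a : ℝ) * lam ^ 3 ≤ Real.exp lam := by rw [hexplam]; exact haX
      have h3 := ha2 lam hlama2
      have h4 : 4 * B * B * lam ^ 3 ≤ c * Real.exp lam := by
        have h5 : 4 * B * B / c * lam ^ 3 = (4 * B * B * lam ^ 3) / c := by ring
        rw [h5, div_le_iff₀ hc0] at h3
        linarith
      have h6 : 2 * B ≤ c * lam := by
        rw [div_le_iff₀ hc0] at hlamBc
        linarith
      have h7 : B * (a * lam ^ 2) * 2 ≤ c * Real.exp lam := by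
        calc B * (a * lam ^ 2) * 2 = (2 * B) * (a * lam ^ 2) := by ring
          _ ≤ (c * lam) * (a * lam ^ 2) := by gcongr
          _ = c * (a * lam ^ 3) := by ring
          _ ≤ c * Real.exp lam := by gcongr
      calc B * lam * (l * Real.log l) ≤ B * lam * ((a + 2 * B * lam) * lam) := by gcongr
        _ = B * (a * lam ^ 2) + 2 * B * B * lam ^ 3 := by ring
        _ ≤ c * Real.exp lam := by linarith
    · intro s h1 h2
      refine hz l (hlaml₀.trans hl_ge) (2 ^ a) χ hχ2 ?_ s h1 ?_
      · push_cast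
        rw [Real.log_pow]
        have h3 : Real.log 2 ≤ 1 := by
          have := Real.log_two_lt_d9
          linarith
        have h4 : (a : ℝ) * Real.log 2 ≤ a * 1 := by gcongr
        have h5 : 0 ≤ 2 * B * lam := by positivity
        rw [hl]; linarith
      · refine (hTl s.im h2).trans ?_
        rw [hl]; linarith
  · -- conductors 4 and 8
    have hale : a ≤ 3 := by omega
    set l : ℝ := 2 * B * lam with hl
    have hl_ge : 2 * lam ≤ l := by
      rw [hl]; nlinarith
    have hlpos : 0 < l := by linarith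
    obtain ⟨fs, hfs, hmain⟩ := hl1 l (by linarith)
    have hne : 2 ^ a ≠ fs := by
      have h8 : 2 ^ a ≤ 8 := by
        calc 2 ^ a ≤ 2 ^ 3 := Nat.pow_le_pow_right (by norm_num) hale
          _ = 8 := by norm_num
      rcases hfs with h | h <;> omega
    have hlpow : l ^ 18 = (2 * B) ^ 18 * lam ^ 18 := by rw [hl]; ring
    refine core A χ hχ1 hXpos hLpos (by linarith) hC hC48 (δ := d / l ^ 18) (M := l ^ 18 / d)
      (by positivity) ?_ (by positivity) ?_ ?_ ?_
    · rw [div_le_iff₀ (by positivity)]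
      have h2 : (2 : ℝ) ≤ l := by linarith
      have h3 : (2 : ℝ) ^ 18 ≤ l ^ 18 := by gcongr
      norm_num at h3
      linarith
    · have h1 := ha3 lam hlama3
      have h2 : 48 * (l ^ 18 / d) = 48 * (2 * B) ^ 18 / d * lam ^ 18 := by
        rw [hlpow]; ring
      rw [h2]
      refine h1.trans ?_
      rw [Real.exp_le_exp]
      linarith
    · have h1 := ha4 lam hlama4
      have h2 : B * (2 * B) ^ 18 / d * lam ^ 19 = (B * lam * l ^ 18) / d := by
        rw [hlpow]; ring
      rw [h2, div_le_iff₀ hd0] at h1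
      rw [div_mul_eq_mul_div, le_div_iff₀ (by positivity)]
      linarith
    · intro s h1 h2
      refine hmain (2 ^ a) hq1 ?_ hne χ hχ s h1 (hTl s.im h2)
      push_cast
      rw [Real.log_pow]
      have h3 : Real.log 2 ≤ 1 := by
        have := Real.log_two_lt_d9
        linarith
      have h4 : (a : ℝ) ≤ 3 := by exact_mod_cast hale
      have h5 : (a : ℝ) * Real.log 2 ≤ 3 * 1 := by
        have := Real.log_nonneg (show (1 : ℝ) ≤ 2 by norm_num)
        gcongr
      linarith

end Pool.Agent.H201R3.DYZ2
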